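import Pool.Agent.N754.GF.Stm

/-!
# Project GF, part REGD: the dual derivations are regular at unramified places
-/

set_option autoImplicit false

open MvPolynomial FF Pool.Agent.W603.LV

namespace Pool.Agent.N691.GF

open Pool.Agent.W602.GT (Divisorial DerReg)
open Pool.Agent.N754.LG (Dual)
open Pool.Agent.N754.GF

section

variable {k K : Type} [Field k] [Field K] [Algebra k K] {w : ℕ}

/-- the dual derivations of a polynomial -/
theorem dual_aeval {b : Fin w → K} {D : Fin w → Derivation k K K} (hD : Dual b D) (j : Fin w)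
    (A : MvPolynomial (Fin w) k) : D j (aeval b A) = aeval b (X j * pderiv j A) := by
  induction A using MvPolynomial.induction_on with
  | C a =>
    rw [aeval_C, Derivation.map_algebraMap, pderiv_C, mul_zero, map_zero]
  | add p q hp hq => rw [map_add, map_add, hp, hq, map_add, mul_add, map_add]
  | mul_X p i hp =>
    rw [map_mul, Derivation.leibniz, aeval_X, hp, hD.1, Derivation.leibniz, pderiv_X]
    by_cases h : j = i
    · subst h
      simp only [if_true, Pi.single_eq_same, smul_eq_mul, map_mul, map_add, aeval_X, map_one]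
      ring
    · simp only [if_neg h, Pi.single_eq_of_ne (fun e => h e.symm : i ≠ j), smul_eq_mul, map_mul,
        map_add, aeval_X, map_zero, mul_zero, zero_add]
      ring

/-- an algebraic relation with polynomial coefficients -/
theorem rel0 {b : Fin w → K} (hb : AlgebraicIndependent k b) (htr : Algebra.trdeg k K = w)
    (f : K) : ∃ (N : ℕ) (c : ℕ → MvPolynomial (Fin w) k), (∃ i ≤ N, c i ≠ 0) ∧
      ∑ i ∈ Finset.range (N + 1), aeval b (c i) * f ^ i = 0 := by
  have h1 : IsTranscendenceBasis k b := hb.isTranscendenceBasis_of_trdeg_le_of_finite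
    (by rw [htr]; simp)
  have h2 := h1.isAlgebraic
  obtain ⟨p, hp0, hp⟩ := h2.isAlgebraic f
  have h3 : ∀ i, ∃ c : MvPolynomial (Fin w) k, aeval b c = (p.coeff i : K) := by
    intro i
    have h4 : (p.coeff i : K) ∈ (aeval b : MvPolynomial (Fin w) k →ₐ[k] K).range := by
      rw [← Algebra.adjoin_range_eq_range_aeval]
      exact (p.coeff i).2
    exact h4
  choose c hc using h3
  refine ⟨p.natDegree, c, ⟨p.natDegree, le_rfl, fun h0 => ?_⟩, ?_⟩
  · have h5 := hc p.natDegree
    rw [h0, map_zero] at h5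
    apply hp0
    rw [← Polynomial.leadingCoeff_eq_zero]
    exact Subtype.ext h5.symm
  · rw [Polynomial.aeval_eq_sum_range] at hp
    rw [← hp]
    refine Finset.sum_congr rfl fun i _ => ?_
    rw [hc]
    rfl

end

section

variable {k K : Type} [Field k] [Field K] [Algebra k K] {w : ℕ} {b : Fin w → K}
  {P : Place k K} {F : MvPolynomial (Fin w) k}

/-- a relation all of whose coefficients are divisible by `F` can be divided by `F` -/
theorem rel1 (hb : AlgebraicIndependent k b) (hF0 : F ≠ 0) {j : Fin w} (hj : 0 < degreeOf j F)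
    {f : K} {N : ℕ} {i0 : ℕ} (hi0 : i0 ≤ N) :
    ∀ (n : ℕ) (c : ℕ → MvPolynomial (Fin w) k), c i0 ≠ 0 → degreeOf j (c i0) ≤ n →
      ∑ i ∈ Finset.range (N + 1), aeval b (c i) * f ^ i = 0 →
      ∃ c' : ℕ → MvPolynomial (Fin w) k, (∃ i ≤ N, ¬ F ∣ c' i) ∧
        ∑ i ∈ Finset.range (N + 1), aeval b (c' i) * f ^ i = 0 := by
  have hFb : aeval b F ≠ 0 := fun h => hF0 (hb.eq_zero_of_aeval_eq_zero _ h)
  intro n
  induction n with
  | zero =>
    intro c h0 hd hs
    refine ⟨c, ⟨i0, hi0, ?_⟩, hs⟩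
    rintro ⟨q, hq⟩
    have hq0 : q ≠ 0 := by
      rintro rfl
      rw [mul_zero] at hq
      exact h0 hq
    rw [hq, degreeOf_mul_eq hF0 hq0] at hd
    omega
  | succ n ih =>
    intro c h0 hd hs
    by_cases hex : ∃ i ≤ N, ¬ F ∣ c i
    · exact ⟨c, hex, hs⟩
    · have hall : ∀ i, ∃ q, i ≤ N → c i = F * q := by
        intro i
        by_cases hi : i ≤ N
        · have h1 : F ∣ c i := by
            by_contra h
            exact hex ⟨i, hi, h⟩
          obtain ⟨q, hq⟩ := h1
          exact ⟨q, fun _ => hq⟩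
        · exact ⟨0, fun h => absurd h hi⟩
      choose q hq using hall
      have hq0 : q i0 ≠ 0 := by
        intro h
        have := hq i0 hi0
        rw [h, mul_zero] at this
        exact h0 this
      refine ih q hq0 ?_ ?_
      · rw [hq i0 hi0, degreeOf_mul_eq hF0 hq0] at hd
        omega
      · have h1 : ∑ i ∈ Finset.range (N + 1), aeval b (c i) * f ^ i =
            aeval b F * ∑ i ∈ Finset.range (N + 1), aeval b (q i) * f ^ i := by
          rw [Finset.mul_sum]
          refine Finset.sum_congr rfl fun i hi => ?_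
          rw [hq i (by have := Finset.mem_range.1 hi; omega), map_mul]
          ring
        rw [h1] at hs
        exact (mul_eq_zero.1 hs).resolve_left hFb

/-- a relation of degree `m` with invertible leading coefficient, modulo the maximal ideal -/
def Rl (b : Fin w → K) (P : Place k K) (F : MvPolynomial (Fin w) k) (f : K) (m : ℕ) : Prop :=
  ∃ c : ℕ → MvPolynomial (Fin w) k, ¬ F ∣ c m ∧
    Ge P 1 (∑ i ∈ Finset.range (m + 1), aeval b (c i) * f ^ i)

theorem ge_poly (hb0 : ∀ j, P.ord (b j) = 0) (A : MvPolynomial (Fin w) k) :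
    Ge P 0 (aeval b A) := by
  induction A using MvPolynomial.induction_on with
  | C a => rw [aeval_C]; exact Ge.const a
  | add p q hp hq => rw [map_add]; exact hp.add hq
  | mul_X p i hp =>
    rw [map_mul, aeval_X]
    have h1 : Ge P 0 (b i) := Or.inr (hb0 i).ge
    have h2 := hp.mul h1
    rwa [add_zero] at h2

theorem ge_dvd (hb0 : ∀ j, P.ord (b j) = 0) (hF1 : P.ord (aeval b F) = 1)
    {A : MvPolynomial (Fin w) k} (h : F ∣ A) : Ge P 1 (aeval b A) := by
  obtain ⟨q, rfl⟩ := h
  rw [map_mul]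
  have h1 : Ge P 1 (aeval b F) := Or.inr hF1.ge
  have h2 := h1.mul (ge_poly hb0 q)
  rwa [add_zero] at h2

theorem ge_pow {f : K} (hf : Ge P 0 f) (n : ℕ) : Ge P 0 (f ^ n) := by
  have := hf.pow n
  simpa using this

theorem rel2 (hb0 : ∀ j, P.ord (b j) = 0) (hF1 : P.ord (aeval b F) = 1) {f : K}
    (hf : Ge P 0 f) :
    ∀ (N : ℕ) (c : ℕ → MvPolynomial (Fin w) k), (∃ i ≤ N, ¬ F ∣ c i) →
      Ge P 1 (∑ i ∈ Finset.range (N + 1), aeval b (c i) * f ^ i) → ∃ m, Rl b P F f m := by
  intro N
  induction N with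
  | zero =>
    rintro c ⟨i, hi, hF⟩ hs
    have e : i = 0 := by omega
    subst e
    exact ⟨0, c, hF, hs⟩
  | succ N ih =>
    rintro c ⟨i, hi, hF⟩ hs
    by_cases hN : F ∣ c (N + 1)
    · refine ih c ⟨i, ?_, hF⟩ ?_
      · rcases Nat.lt_or_ge N i with h | h
        · exfalso
          have e : i = N + 1 := by omega
          rw [e] at hF
          exact hF hN
        · exact h
      · rw [Finset.sum_range_succ] at hs
        have h1 : Ge P 1 (aeval b (c (N + 1)) * f ^ (N + 1)) := by
          have := (ge_dvd hb0 hF1 hN).mul (ge_pow hf (N + 1))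
          simpa using this
        have h2 := hs.sub h1
        rwa [add_sub_cancel_right] at h2
    · exact ⟨N + 1, c, hN, hs⟩

end

section

variable {k K : Type} [Field k] [Field K] [Algebra k K] [CharZero k] {w : ℕ} {b : Fin w → K}
  {P : Place k K} {F : MvPolynomial (Fin w) k}

/-- one step of the descent -/
theorem descent {D : Fin w → Derivation k K K} (hb : AlgebraicIndependent k b) (hDu : Dual b D)
    (htr : Algebra.trdeg k K = w) (hb0 : ∀ j, P.ord (b j) = 0) (hF0 : F ≠ 0)
    (hF1 : P.ord (aeval b F) = 1)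
    (hFu : ∀ G : MvPolynomial (Fin w) k, ¬ F ∣ G → P.ord (aeval b G) = 0) {j0 : Fin w}
    (hj0 : 0 < degreeOf j0 F) (j : Fin w) (n : ℕ)
    (hn : ∀ f : K, P.Reg f → Ge P (-((n + 1 : ℕ) : ℤ)) (D j f)) (f : K) (hf : P.Reg f) :
    Ge P (-(n : ℤ)) (D j f) := by
  classical
  have hf' : Ge P 0 f := hf
  have hFb : aeval b F ≠ 0 := fun h => hF0 (hb.eq_zero_of_aeval_eq_zero _ h)
  have hne : ∀ A : MvPolynomial (Fin w) k, ¬ F ∣ A → aeval b A ≠ 0 := by
    intro A hA h
    apply hA
    rw [hb.eq_zero_of_aeval_eq_zero _ h]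
    exact dvd_zero F
  -- the derivation without poles
  obtain ⟨E, hE⟩ : ∃ E : Derivation k K K, ∀ x, E x = aeval b F ^ (n + 1) * D j x :=
    ⟨aeval b F ^ (n + 1) • D j, fun x => rfl⟩
  have hpi : Ge P ((n + 1 : ℕ) : ℤ) (aeval b F ^ (n + 1)) := by
    right
    rw [P.ord_pow, hF1, mul_one]
  have hE0 : ∀ x, Ge P 0 x → Ge P 0 (E x) := by
    intro x hx
    rw [hE]
    have := hpi.mul (hn x hx)
    rwa [add_neg_cancel] at this
  have hEp : ∀ A : MvPolynomial (Fin w) k, Ge P 1 (E (aeval b A)) := by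
    intro A
    rw [hE, dual_aeval hDu]
    have h1 := hpi.mul (ge_poly (P := P) hb0 (X j * pderiv j A))
    rw [add_zero] at h1
    exact h1.mono (by push_cast; omega)
  have hE1 : ∀ x, Ge P 1 x → Ge P 1 (E x) := by
    intro x hx
    have e : x = aeval b F * (x / aeval b F) := by field_simp
    have h1 : Ge P 0 (x / aeval b F) := by
      apply Ge.of_mul' (h := aeval b F) (m := 1) hFb hF1
      rw [mul_div_cancel₀ _ hFb]
      simpa using hx
    rw [e, Derivation.leibniz, smul_eq_mul, smul_eq_mul]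
    have hFg : Ge P 1 (aeval b F) := Or.inr hF1.ge
    have h2 := hFg.mul (hE0 _ h1)
    have h3 := h1.mul (hEp F)
    rw [add_zero] at h2
    rw [zero_add] at h3
    exact h2.add h3
  -- a relation of minimal degree
  have hex : ∃ m, Rl b P F f m := by
    obtain ⟨N, c, ⟨i0, hi0, hc0⟩, hs⟩ := rel0 hb htr f
    obtain ⟨c', hc', hs'⟩ := rel1 hb hF0 hj0 hi0 _ c hc0 le_rfl hs
    exact rel2 hb0 hF1 hf' N c' hc' (by rw [hs']; exact Ge.zero)
  obtain ⟨m, ⟨c, hc, hs⟩, hmin⟩ : ∃ m, Rl b P F f m ∧ ∀ m' < m, ¬ Rl b P F f m' :=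
    ⟨Nat.find hex, Nat.find_spec hex, fun m' h => Nat.find_min hex h⟩
  obtain ⟨m, rfl⟩ : ∃ m', m = m' + 1 := by
    rcases Nat.eq_zero_or_pos m with h | h
    · exfalso
      subst h
      rw [Finset.sum_range_one, pow_zero, mul_one] at hs
      rcases hs with h1 | h1
      · exact hne _ hc h1
      · rw [hFu _ hc] at h1
        omega
    · exact ⟨m - 1, by omega⟩
  have hs2 : ¬ Ge P 1 (∑ i ∈ Finset.range (m + 1),
      aeval b (C ((i : k) + 1) * c (i + 1)) * f ^ i) := by
    intro h
    refine hmin m (by omega) ⟨fun i => C ((i : k) + 1) * c (i + 1), ?_, h⟩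
    intro h1
    apply hc
    have h2 : (m : k) + 1 ≠ 0 := Nat.cast_add_one_ne_zero m
    have h3 : c (m + 1) = C (((m : k) + 1)⁻¹) * (C ((m : k) + 1) * c (m + 1)) := by
      rw [← mul_assoc, ← C_mul, inv_mul_cancel₀ h2, C_1, one_mul]
    rw [h3]
    exact Dvd.dvd.mul_left h1 _
  have hs3 : Ge P 0 (∑ i ∈ Finset.range (m + 1),
      aeval b (C ((i : k) + 1) * c (i + 1)) * f ^ i) := by
    refine Ge.sum _ _ fun i _ => ?_
    have := (ge_poly (P := P) hb0 (C ((i : k) + 1) * c (i + 1))).mul (ge_pow hf' i)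
    simpa using this
  obtain ⟨s, hsdef⟩ : ∃ s, s = ∑ i ∈ Finset.range (m + 1),
      aeval b (C ((i : k) + 1) * c (i + 1)) * f ^ i := ⟨_, rfl⟩
  rw [← hsdef] at hs2 hs3
  have hs0 : s ≠ 0 := fun h => hs2 (Or.inl h)
  have hs00 : P.ord s = 0 := by
    have h1 := hs3.resolve_left hs0
    by_contra h
    exact hs2 (Or.inr (by omega))
  -- differentiate the relation
  have hder : E (∑ i ∈ Finset.range (m + 1 + 1), aeval b (c i) * f ^ i) =
      (∑ i ∈ Finset.range (m + 1 + 1), f ^ i * E (aeval b (c i))) + s * E f := by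
    rw [map_sum]
    have h1 : ∀ i ∈ Finset.range (m + 1 + 1), E (aeval b (c i) * f ^ i) =
        f ^ i * E (aeval b (c i)) + aeval b (c i) * ((i : K) * f ^ (i - 1)) * E f := by
      intro i _
      rw [Derivation.leibniz, Derivation.leibniz_pow, smul_eq_mul, smul_eq_mul, nsmul_eq_mul,
        smul_eq_mul]
      ring
    rw [Finset.sum_congr rfl h1, Finset.sum_add_distrib, ← Finset.sum_mul]
    congr 2
    rw [Finset.sum_range_succ', hsdef]
    rw [Nat.cast_zero, zero_mul, mul_zero, add_zero]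
    refine Finset.sum_congr rfl fun i _ => ?_
    rw [map_mul, aeval_C, map_add, map_one, map_natCast, Nat.add_sub_cancel]
    push_cast
    ring
  have h4 : Ge P 1 (s * E f) := by
    have h5 := hE1 _ hs
    rw [hder] at h5
    have h6 : Ge P 1 (∑ i ∈ Finset.range (m + 1 + 1), f ^ i * E (aeval b (c i))) := by
      refine Ge.sum _ _ fun i _ => ?_
      have := (ge_pow hf' i).mul (hEp (c i))
      simpa using this
    have h7 := h5.sub h6
    rwa [add_sub_cancel_left] at h7
  have h5 : Ge P 1 (E f) := by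
    apply Ge.of_mul' (h := s) (m := 0) hs0 hs00
    rw [add_zero]
    exact h4
  rw [hE] at h5
  apply Ge.of_mul' (h := aeval b F ^ (n + 1)) (m := ((n + 1 : ℕ) : ℤ)) (pow_ne_zero _ hFb)
  · rw [P.ord_pow, hF1, mul_one]
  · have e : -(n : ℤ) + ((n + 1 : ℕ) : ℤ) = 1 := by push_cast; ring
    rw [e]
    exact h5

end

theorem regd (hD : S_DBD) : S_REGD := by
  classical
  intro k K _ _ _ _ T hT w htr b D hb hDu P hb0 ⟨F, hF, hF1, hFu⟩
  have hF0 : F ≠ 0 := hF.ne_zero
  have hFu' : ∀ G : MvPolynomial (Fin w) k, ¬ F ∣ G → P.ord (aeval b G) = 0 :=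
    fun G hG => hFu G (hF.isRelPrime_iff_not_dvd.2 hG)
  -- a variable of `F`
  obtain ⟨j0, hj0⟩ : ∃ j0 : Fin w, 0 < degreeOf j0 F := by
    by_contra hcon
    have h1 : ∀ j, degreeOf j F = 0 := by
      intro j
      by_contra h
      exact hcon ⟨j, Nat.pos_of_ne_zero h⟩
    have h2 : F.totalDegree = 0 := by
      rw [totalDegree_eq_zero_iff]
      intro m hm x
      have h3 := monomial_le_degreeOf x hm
      rw [h1] at h3
      omega
    rw [totalDegree_eq_zero_iff_eq_C] at h2
    apply hF.not_isUnit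
    rw [h2]
    have h4 : F.coeff 0 ≠ 0 := by
      intro h
      rw [h, C_0] at h2
      exact hF0 h2
    exact (isUnit_iff_ne_zero.2 h4).map C
  have hdiv : Divisorial w P := by
    obtain ⟨w', rfl⟩ : ∃ w', w = w' + 1 := ⟨w - 1, by have := j0.2; omega⟩
    refine ⟨fun i => b (j0.succAbove i), ?_⟩
    intro G hG
    change MvPolynomial (Fin w') k at G
    have h1 : aeval (fun i => b (j0.succAbove i)) G = aeval b (rename j0.succAbove G) := by
      rw [aeval_rename]
      rfl
    have hG' : rename j0.succAbove G ≠ 0 := by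
      intro h
      apply hG
      apply rename_injective _ (Fin.succAbove_right_injective (p := j0))
      rw [h, map_zero]
    have hnd : ¬ F ∣ rename j0.succAbove G := by
      rintro ⟨q, hq⟩
      have hq0 : q ≠ 0 := by
        rintro rfl
        rw [mul_zero] at hq
        exact hG' hq
      have h2 : degreeOf j0 (rename j0.succAbove G) = 0 := by
        rw [← Nat.le_zero, degreeOf_le_iff]
        intro m hm
        rw [Nat.le_zero]
        obtain ⟨u, hu, -⟩ := coeff_rename_ne_zero _ _ _ (mem_support_iff.1 hm)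
        rw [← hu]
        rw [Finsupp.mapDomain_of_notMem_range]
        rintro ⟨i, hi⟩
        exact Fin.succAbove_ne _ _ hi
      rw [hq, degreeOf_mul_eq hF0 hq0] at h2
      omega
    exact ⟨fun h => hG' (hb.eq_zero_of_aeval_eq_zero _ (h1.symm.trans h)),
      (congrArg P.ord h1).trans (hFu' _ hnd)⟩
  refine ⟨hdiv, fun j => ?_⟩
  obtain ⟨n, hn⟩ := hD k K T hT w htr P hdiv (D j)
  have key : ∀ n : ℕ, (∀ f : K, P.Reg f → Ge P (-(n : ℤ)) (D j f)) → DerReg P (D j) := by
    intro n
    induction n with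
    | zero =>
      intro h f hf
      have := h f hf
      rw [Nat.cast_zero, neg_zero] at this
      exact this
    | succ n ih =>
      intro h
      exact ih (descent hb hDu htr hb0 hF0 hF1 hFu' hj0 j n h)
  exact key n hn

end Pool.Agent.N691.GF
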